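import Pool.Agent.W123.CE.Core
import Pool.Agent.H692R2.USS.T1

namespace Pool.Agent.W123.CE

open Finset

/-- number of primes in `(x, x + y]` congruent to `a` modulo `q` -/
def cnt (x y q a : ℕ) : ℕ :=
  ((Finset.Ioc x (x + y)).filter (fun p => p.Prime ∧ p % q = a % q)).card

/-- the same with primes coprime to `Q` -/
def cntc (Q x y q a : ℕ) : ℕ :=
  (((Finset.Ioc x (x + y)).filter (fun p => p.Prime ∧ p.Coprime Q)).filter
    (fun p => p % q = a % q)).card

def Om (Q : ℕ) : Finset ℕ := (Finset.range Q).filter (fun a => a.Coprime Q)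

theorem card_Om (Q : ℕ) (hQ : 0 < Q) : (Om Q).card = Q.totient := by
  have h := fib 1 Q 0 hQ (one_dvd Q) (by simp)
  rw [Nat.totient_one, one_mul] at h
  rw [← h, Om]
  congr 1
  apply Finset.filter_congr
  intro a _
  simp [Nat.mod_one]

theorem sumf (Q x y q q' c : ℕ) (hQ : 0 < Q) (h1 : q ∣ q') (h2 : q' ∣ Q) :
    ∑ a ∈ (Om Q).filter (fun a => a % q = c), q'.totient * cntc Q x y q' a =
      Q.totient * ((((Finset.Ioc x (x + y)).filter (fun p => p.Prime ∧ p.Coprime Q)).filter
        (fun p => p % q = c)).card) := by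
  classical
  set P := (Finset.Ioc x (x + y)).filter (fun p => p.Prime ∧ p.Coprime Q) with hP
  have e1 : ∀ a, q'.totient * cntc Q x y q' a =
      ∑ p ∈ P, if p % q' = a % q' then q'.totient else 0 := by
    intro a
    rw [cntc, Finset.card_filter, Finset.mul_sum]
    apply Finset.sum_congr rfl
    intro p _
    split_ifs <;> simp
  rw [Finset.sum_congr rfl (fun a _ => e1 a), Finset.sum_comm, Finset.card_filter, Finset.mul_sum]
  apply Finset.sum_congr rfl
  intro p hp
  have hpQ : p.Coprime Q := (Finset.mem_filter.1 hp).2.2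
  rw [← Finset.sum_filter, Finset.sum_const, smul_eq_mul]
  by_cases hc : p % q = c
  · rw [if_pos hc, mul_one, mul_comm]
    rw [← fib q' Q p hQ h2 (Nat.Coprime.coprime_dvd_right h2 hpQ)]
    congr 2
    ext a
    simp only [Om, Finset.mem_filter, Finset.mem_range]
    constructor
    · rintro ⟨⟨⟨ha, hac⟩, _⟩, h⟩
      exact ⟨ha, hac, h.symm⟩
    · rintro ⟨ha, hac, h⟩
      refine ⟨⟨⟨ha, hac⟩, ?_⟩, h.symm⟩
      have : a ≡ p [MOD q'] := h
      have h3 : a ≡ p [MOD q] := this.of_dvd h1
      rw [← hc]; exact h3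
  · rw [if_neg hc, mul_zero]
    have : (((Om Q).filter (fun a => a % q = c)).filter (fun a => p % q' = a % q')) = ∅ := by
      apply Finset.filter_eq_empty_iff.2
      intro a ha hpa
      have hac := (Finset.mem_filter.1 ha).2
      apply hc
      have : p ≡ a [MOD q'] := hpa
      have h3 : p ≡ a [MOD q] := this.of_dvd h1
      rw [← hac]; exact h3
    rw [this, Finset.card_empty, zero_mul]

theorem cntc_le (Q x y q a : ℕ) : cntc Q x y q a ≤ cnt x y q a := by
  unfold cntc cnt
  apply Finset.card_le_card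
  intro p hp
  simp only [Finset.mem_filter] at hp ⊢
  exact ⟨hp.1.1, hp.1.2.1, hp.2⟩

theorem cnt_le (Q x y q a : ℕ) (hQ : 0 < Q) : cnt x y q a ≤ cntc Q x y q a + Q.primeFactors.card := by
  unfold cntc cnt
  rw [← Nat.sub_le_iff_le_add']
  refine le_trans (Finset.le_card_sdiff _ _) ?_
  apply Finset.card_le_card
  intro p hp
  simp only [Finset.mem_sdiff, Finset.mem_filter, not_and] at hp
  obtain ⟨⟨h1, h2, h3⟩, h4⟩ := hp
  rw [Nat.mem_primeFactors]
  refine ⟨h2, ?_, hQ.ne'⟩
  by_contra hnd
  exact h4 ⟨h1, h2, (Nat.Prime.coprime_iff_not_dvd h2).2 hnd⟩ h3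

theorem primeFactors_card_le (Q : ℕ) (hQ : 0 < Q) : (Q.primeFactors.card : ℝ) ≤ 2 * Real.log Q := by
  have h1 : 2 ^ Q.primeFactors.card ≤ Q := by
    calc 2 ^ Q.primeFactors.card ≤ ∏ p ∈ Q.primeFactors, p := by
          apply Finset.pow_card_le_prod
          intro p hp
          exact (Nat.prime_of_mem_primeFactors hp).two_le
      _ ≤ Q := Nat.le_of_dvd hQ (Nat.prod_primeFactors_dvd Q)
  have h2 : (Q.primeFactors.card : ℝ) * Real.log 2 ≤ Real.log Q := by
    rw [← Real.log_pow]
    apply Real.log_le_log (by positivity)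
    exact_mod_cast h1
  have h3 : (0.6931471803 : ℝ) < Real.log 2 := Real.log_two_gt_d9
  nlinarith [Nat.cast_nonneg (α := ℝ) Q.primeFactors.card]

/-- Brun-Titchmarsh for `cnt` -/
theorem cnt_bt (ε : ℝ) (hε : 0 < ε) (x y q a : ℕ) (hq : 0 < q) (hy : 2 ≤ y)
    (hqy : (q : ℝ) ≤ (y : ℝ) ^ (1 - ε)) :
    (q.totient : ℝ) * cnt x y q a ≤ 44 / ε * (y / Real.log y) := by
  classical
  have hy0 : (0 : ℝ) < y := by exact_mod_cast (by omega : 0 < y)
  have hy2 : (2 : ℝ) ≤ y := by exact_mod_cast hy
  have hlog : 0 < Real.log y := Real.log_pos (by linarith)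
  have hq0 : (0 : ℝ) < q := by exact_mod_cast hq
  have hqy1 : (q : ℝ) ≤ y := by
    refine hqy.trans ?_
    calc (y : ℝ) ^ (1 - ε) ≤ (y : ℝ) ^ (1 : ℝ) :=
          Real.rpow_le_rpow_of_exponent_le (by linarith) (by linarith)
      _ = y := Real.rpow_one _
  have hqyN : q ≤ y := by exact_mod_cast hqy1
  set N : ℕ := y / q + 1 with hN
  have hdiv1 : 1 ≤ y / q := (Nat.one_le_div_iff hq).2 hqyN
  have hN2 : 2 ≤ N := by omega
  have hNlow : (y : ℝ) / q ≤ N := by
    rw [div_le_iff₀ hq0]
    have h := Nat.lt_div_mul_add (a := y) hq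
    have h' : y < (y / q + 1) * q := by
      rw [add_mul, one_mul]; exact h
    rw [hN]
    exact_mod_cast h'.le
  have hNup : (N : ℝ) ≤ 2 * (y / q) := by
    have h1 : ((y / q : ℕ) : ℝ) ≤ (y : ℝ) / q := Nat.cast_div_le
    have h2 : (1 : ℝ) ≤ (y : ℝ) / q := by
      rw [le_div_iff₀ hq0]; linarith
    rw [hN]; push_cast; linarith
  have hNlog : ε * Real.log y ≤ Real.log N := by
    have h1 : (y : ℝ) ^ ε ≤ N := by
      refine le_trans ?_ hNlow
      rw [le_div_iff₀ hq0]
      calc (y : ℝ) ^ ε * q ≤ (y : ℝ) ^ ε * (y : ℝ) ^ (1 - ε) :=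
            mul_le_mul_of_nonneg_left hqy (by positivity)
        _ = y := by
            rw [← Real.rpow_add hy0]
            simp
    rw [← Real.log_rpow hy0]
    exact Real.log_le_log (by positivity) h1
  have hNlogpos : 0 < Real.log N := Real.log_pos (by exact_mod_cast (by omega : 1 < N))
  set r : ℕ := (a + (q - 1) * (x + 1)) % q with hr
  have hcard : cnt x y q a ≤
      ((Finset.range N).filter (fun k => ((x + 1 + r) + k * q).Prime)).card := by
    unfold cnt
    have key : ∀ p ∈ (Finset.Ioc x (x + y)).filter (fun p => p.Prime ∧ p % q = a % q),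
        p = (x + 1 + r) + ((p - (x + 1)) / q) * q := by
      intro p hp
      simp only [Finset.mem_filter, Finset.mem_Ioc] at hp
      obtain ⟨⟨h1, h2⟩, h3, h4⟩ := hp
      obtain ⟨d, rfl⟩ : ∃ d, p = x + 1 + d := ⟨p - (x + 1), by omega⟩
      have h5 : (x + 1 + d) - (x + 1) = d := by omega
      rw [h5]
      have h6 : d % q = r := by
        rw [hr]
        have h7 : x + 1 + d ≡ a [MOD q] := h4
        have h8 : x + 1 + d + (q - 1) * (x + 1) ≡ a + (q - 1) * (x + 1) [MOD q] :=
          Nat.ModEq.add_right _ h7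
        have h9 : x + 1 + d + (q - 1) * (x + 1) = d + q * (x + 1) := by
          obtain ⟨s, rfl⟩ : ∃ s, q = s + 1 := ⟨q - 1, by omega⟩
          simp only [Nat.add_sub_cancel]
          ring
        rw [h9] at h8
        have h10 : d + q * (x + 1) ≡ d [MOD q] := by
          have : q * (x + 1) ≡ 0 [MOD q] := (Nat.modEq_zero_iff_dvd).2 (dvd_mul_right _ _)
          simpa using Nat.ModEq.add_left d this
        exact (h10.symm.trans h8)
      have h11 := Nat.mod_add_div d q
      rw [h6] at h11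
      linarith [mul_comm q (d / q)]
    apply Finset.card_le_card_of_injOn (fun p => (p - (x + 1)) / q)
    · intro p hp
      have hk := key p hp
      have hp' := Finset.mem_coe.1 hp
      simp only [Finset.mem_filter, Finset.mem_Ioc] at hp'
      simp only [Finset.coe_filter, Set.mem_setOf_eq, Finset.mem_range]
      refine ⟨?_, ?_⟩
      · rw [hN]
        have : (p - (x + 1)) / q ≤ y / q := Nat.div_le_div_right (by omega)
        omega
      · rw [← hk]; exact hp'.2.1
    · intro p hp p' hp' h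
      rw [key p hp, key p' hp']
      simp only at h
      rw [h]
  have hbt := Pool.Agent.H692R2.USS.t1_brun_titchmarsh (x + 1 + r) q N hN2 hq
  have htot : (0 : ℝ) < q.totient := by exact_mod_cast Nat.totient_pos.2 hq
  have h1 : (cnt x y q a : ℝ) ≤ 22 * ((q : ℝ) / q.totient) * N / Real.log N :=
    le_trans (by exact_mod_cast hcard) hbt
  calc (q.totient : ℝ) * cnt x y q a ≤
      q.totient * (22 * ((q : ℝ) / q.totient) * N / Real.log N) :=
        mul_le_mul_of_nonneg_left h1 htot.le
    _ = 22 * q * N / Real.log N := by field_simp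
    _ ≤ 22 * q * (2 * (y / q)) / (ε * Real.log y) := by
        gcongr
    _ = 44 / ε * (y / Real.log y) := by
        field_simp
        ring

end Pool.Agent.W123.CE
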