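import Mathlib

namespace Pool.Agent.W123.CE

open Finset

section Mart

variable {Ω : Finset ℕ} {κ : ℕ → ℕ → ℕ} {f : ℕ → ℕ → ℝ} {R : ℕ}

/-- orthogonality -/
theorem orth (Ω : Finset ℕ) (κ : ℕ → ℕ) (u v g : ℕ → ℝ)
    (hg : ∀ a b, κ a = κ b → g a = g b)
    (h3 : ∀ c, ∑ a ∈ Ω.filter (fun a => κ a = c), u a = ∑ a ∈ Ω.filter (fun a => κ a = c), v a) :
    ∑ a ∈ Ω, g a * (u a - v a) = 0 := by
  classical
  rw [← Finset.sum_fiberwise_of_maps_to (t := Ω.image κ) (g := κ)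
    (fun a ha => Finset.mem_image_of_mem κ ha)]
  apply Finset.sum_eq_zero
  intro c hc
  obtain ⟨a0, ha0, rfl⟩ := Finset.mem_image.1 hc
  have h : ∀ a ∈ Ω.filter (fun a => κ a = κ a0), g a * (u a - v a) = g a0 * (u a - v a) := by
    intro a ha
    rw [hg a a0 (Finset.mem_filter.1 ha).2]
  rw [Finset.sum_congr rfl h, ← Finset.mul_sum, Finset.sum_sub_distrib, h3 (κ a0), sub_self, mul_zero]

/-- energy increment identity -/
theorem energy (Ω : Finset ℕ) (κ : ℕ → ℕ) (u v : ℕ → ℝ)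
    (hg : ∀ a b, κ a = κ b → v a = v b)
    (h3 : ∀ c, ∑ a ∈ Ω.filter (fun a => κ a = c), u a = ∑ a ∈ Ω.filter (fun a => κ a = c), v a) :
    ∑ a ∈ Ω, (u a - v a) ^ 2 = ∑ a ∈ Ω, u a ^ 2 - ∑ a ∈ Ω, v a ^ 2 := by
  have h := orth Ω κ u v v hg h3
  have h2 : ∀ a, (u a - v a) ^ 2 = u a ^ 2 - v a ^ 2 - 2 * (v a * (u a - v a)) := by
    intro a; ring
  simp_rw [h2]
  rw [Finset.sum_sub_distrib, Finset.sum_sub_distrib, ← Finset.mul_sum, h]
  ring

open Classical in
/-- Kolmogorov's inequality -/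
theorem kolm (Ω : Finset ℕ) (κ : ℕ → ℕ → ℕ) (f : ℕ → ℕ → ℝ) (i j : ℕ) (hij : i ≤ j)
    (h1 : ∀ l l' a b, i ≤ l → l ≤ l' → l' ≤ j → κ l' a = κ l' b → κ l a = κ l b)
    (h2 : ∀ l a b, i ≤ l → l ≤ j → κ l a = κ l b → f l a = f l b)
    (h3 : ∀ l c, i ≤ l → l ≤ j → ∑ a ∈ Ω.filter (fun a => κ l a = c), f j a =
      ∑ a ∈ Ω.filter (fun a => κ l a = c), f l a)
    (lam : ℝ) (hlam : 0 < lam) :
    lam ^ 2 * ((Ω.filter (fun a => ∃ l, i ≤ l ∧ l ≤ j ∧ lam < |f l a - f i a|)).card : ℝ) ≤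
      ∑ a ∈ Ω, (f j a - f i a) ^ 2 := by
  classical
  set S : ℕ → Finset ℕ := fun l => Ω.filter (fun a => lam < |f l a - f i a| ∧
    ∀ l', i ≤ l' → l' < l → ¬ lam < |f l' a - f i a|) with hS
  have hsub : Ω.filter (fun a => ∃ l, i ≤ l ∧ l ≤ j ∧ lam < |f l a - f i a|) =
      (Finset.Icc i j).biUnion S := by
    ext a
    simp only [Finset.mem_filter, Finset.mem_biUnion, Finset.mem_Icc, hS]
    constructor
    · rintro ⟨ha, l, h1, h2, h3⟩
      have hex : ∃ l, i ≤ l ∧ lam < |f l a - f i a| := ⟨l, h1, h3⟩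
      refine ⟨Nat.find hex, ⟨(Nat.find_spec hex).1, ?_⟩, ha, (Nat.find_spec hex).2, ?_⟩
      · exact le_trans (Nat.find_min' hex ⟨h1, h3⟩) h2
      · intro l' hl' hl'2 hl'3
        exact Nat.find_min hex hl'2 ⟨hl', hl'3⟩
    · rintro ⟨l, ⟨h1, h2⟩, ha, h3, _⟩
      exact ⟨ha, l, h1, h2, h3⟩
  have hdisj : ∀ l ∈ Finset.Icc i j, ∀ l' ∈ Finset.Icc i j, l ≠ l' → Disjoint (S l) (S l') := by
    intro l hl l' hl' hne
    rw [Finset.disjoint_left]
    intro a ha ha'
    simp only [hS, Finset.mem_filter] at ha ha'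
    rcases lt_or_gt_of_ne hne with h | h
    · exact ha'.2.2 l (Finset.mem_Icc.1 hl).1 h ha.2.1
    · exact ha.2.2 l' (Finset.mem_Icc.1 hl').1 h ha'.2.1
  have key : ∀ l ∈ Finset.Icc i j, lam ^ 2 * ((S l).card : ℝ) ≤ ∑ a ∈ S l, (f j a - f i a) ^ 2 := by
    intro l hl
    obtain ⟨hil, hlj⟩ := Finset.mem_Icc.1 hl
    set g : ℕ → ℝ := fun a => if (lam < |f l a - f i a| ∧
      ∀ l', i ≤ l' → l' < l → ¬ lam < |f l' a - f i a|) then f l a - f i a else 0 with hg
    have hgm : ∀ a b, κ l a = κ l b → g a = g b := by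
      intro a b hab
      have e1 : ∀ l', i ≤ l' → l' ≤ l → f l' a = f l' b := by
        intro l' h3' h4'
        exact h2 l' a b h3' (h4'.trans hlj) (h1 l' l a b h3' h4' hlj hab)
      have e2 := e1 l hil le_rfl
      have e3 := e1 i le_rfl hil
      have e4 : (lam < |f l a - f i a| ∧
        ∀ l', i ≤ l' → l' < l → ¬ lam < |f l' a - f i a|) ↔ (lam < |f l b - f i b| ∧
        ∀ l', i ≤ l' → l' < l → ¬ lam < |f l' b - f i b|) := by
        rw [e2, e3]
        constructor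
        · rintro ⟨p, r⟩
          refine ⟨p, fun l' x y => ?_⟩
          rw [← e1 l' x y.le]; exact r l' x y
        · rintro ⟨p, r⟩
          refine ⟨p, fun l' x y => ?_⟩
          rw [e1 l' x y.le]; exact r l' x y
      simp only [hg]
      by_cases hc : (lam < |f l a - f i a| ∧
        ∀ l', i ≤ l' → l' < l → ¬ lam < |f l' a - f i a|)
      · rw [if_pos hc, if_pos (e4.1 hc), e2, e3]
      · rw [if_neg hc, if_neg (fun h => hc (e4.2 h))]
    have ho := orth Ω (κ l) (f j) (f l) g hgm (fun c => h3 l c hil hlj)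
    have ho2 : ∑ a ∈ S l, (f l a - f i a) * (f j a - f l a) = 0 := by
      rw [← ho, hS, Finset.sum_filter]
      apply Finset.sum_congr rfl
      intro a _
      simp only [hg]
      split_ifs with hc
      · rfl
      · rw [zero_mul]
    have hexp : ∑ a ∈ S l, (f j a - f i a) ^ 2 =
        ∑ a ∈ S l, (f l a - f i a) ^ 2 + ∑ a ∈ S l, (f j a - f l a) ^ 2 +
        2 * ∑ a ∈ S l, (f l a - f i a) * (f j a - f l a) := by
      rw [Finset.mul_sum, ← Finset.sum_add_distrib, ← Finset.sum_add_distrib]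
      apply Finset.sum_congr rfl
      intro a _
      ring
    rw [hexp, ho2]
    have hpos : 0 ≤ ∑ a ∈ S l, (f j a - f l a) ^ 2 := Finset.sum_nonneg (fun a _ => sq_nonneg _)
    have hmain : lam ^ 2 * ((S l).card : ℝ) ≤ ∑ a ∈ S l, (f l a - f i a) ^ 2 := by
      have : ∀ a ∈ S l, lam ^ 2 ≤ (f l a - f i a) ^ 2 := by
        intro a ha
        simp only [hS, Finset.mem_filter] at ha
        have := ha.2.1
        calc lam ^ 2 ≤ |f l a - f i a| ^ 2 := by
              apply pow_le_pow_left₀ hlam.le this.le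
          _ = _ := sq_abs _
      have h := Finset.card_nsmul_le_sum _ _ _ this
      rw [nsmul_eq_mul] at h
      linarith [h, mul_comm (lam ^ 2) ((S l).card : ℝ)]
    linarith
  rw [hsub, Finset.card_biUnion hdisj]
  push_cast
  rw [Finset.mul_sum]
  calc ∑ l ∈ Finset.Icc i j, lam ^ 2 * ((S l).card : ℝ) ≤
      ∑ l ∈ Finset.Icc i j, ∑ a ∈ S l, (f j a - f i a) ^ 2 := Finset.sum_le_sum key
    _ = ∑ a ∈ (Finset.Icc i j).biUnion S, (f j a - f i a) ^ 2 := by
        rw [Finset.sum_biUnion hdisj]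
    _ ≤ _ := by
        apply Finset.sum_le_sum_of_subset_of_nonneg
        · rw [← hsub]; exact Finset.filter_subset _ _
        · intros; exact sq_nonneg _

open Classical in
/-- the number of blocks with a large maximal deviation -/
theorem blocks (Ω : Finset ℕ) (κ : ℕ → ℕ → ℕ) (f : ℕ → ℕ → ℝ) (R : ℕ)
    (h1 : ∀ l l' a b, l ≤ l' → l' ≤ R → κ l' a = κ l' b → κ l a = κ l b)
    (h2 : ∀ l a b, l ≤ R → κ l a = κ l b → f l a = f l b)
    (h3 : ∀ l j c, l ≤ j → j ≤ R → ∑ a ∈ Ω.filter (fun a => κ l a = c), f j a =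
      ∑ a ∈ Ω.filter (fun a => κ l a = c), f l a)
    (M : ℝ) (hM : ∀ l a, l ≤ R → a ∈ Ω → |f l a| ≤ M) (hΩ : Ω.Nonempty)
    (lam del : ℝ) (hlam : 0 < lam) (hdel : 0 < del)
    (m : ℕ) (t : ℕ → ℕ) (ht : ∀ j < m, t j ≤ t (j + 1)) (htm : t m ≤ R)
    (B : Finset ℕ) (hBm : ∀ j ∈ B, j < m)
    (hB : ∀ j ∈ B, del * (Ω.card : ℝ) < ((Ω.filter (fun a => ∃ l, t j ≤ l ∧ l ≤ t (j + 1) ∧
      lam < |f l a - f (t j) a|)).card : ℝ)) :
    (B.card : ℝ) * (lam ^ 2 * del) ≤ M ^ 2 := by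
  classical
  have hcard : (0 : ℝ) < Ω.card := by exact_mod_cast hΩ.card_pos
  have htR : ∀ j ≤ m, t j ≤ R := by
    intro j hj
    have : ∀ d, ∀ j, j + d = m → t j ≤ t m := by
      intro d
      induction d with
      | zero => intro j hj; simp at hj; rw [hj]
      | succ d ih =>
        intro j hj
        exact (ht j (by omega)).trans (ih (j + 1) (by omega))
    exact (this (m - j) j (by omega)).trans htm
  have hen : ∀ j < m, ∑ a ∈ Ω, (f (t (j + 1)) a - f (t j) a) ^ 2 =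
      ∑ a ∈ Ω, f (t (j + 1)) a ^ 2 - ∑ a ∈ Ω, f (t j) a ^ 2 := by
    intro j hj
    apply energy Ω (κ (t j))
    · intro a b hab
      exact h2 _ a b (htR j hj.le) hab
    · intro c
      exact h3 _ _ c (ht j hj) (htR (j + 1) hj)
  have htel : ∑ j ∈ Finset.range m, ∑ a ∈ Ω, (f (t (j + 1)) a - f (t j) a) ^ 2 =
      ∑ a ∈ Ω, f (t m) a ^ 2 - ∑ a ∈ Ω, f (t 0) a ^ 2 := by
    rw [Finset.sum_congr rfl (fun j hj => hen j (Finset.mem_range.1 hj))]
    exact Finset.sum_range_sub (fun j => ∑ a ∈ Ω, f (t j) a ^ 2) m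
  have htop : ∑ a ∈ Ω, f (t m) a ^ 2 ≤ M ^ 2 * Ω.card := by
    have : ∀ a ∈ Ω, f (t m) a ^ 2 ≤ M ^ 2 := by
      intro a ha
      have h := hM (t m) a htm ha
      rw [← sq_abs]
      exact pow_le_pow_left₀ (abs_nonneg _) h 2
    have h := Finset.sum_le_card_nsmul _ _ _ this
    rw [nsmul_eq_mul] at h
    linarith [h, mul_comm (M ^ 2) (Ω.card : ℝ)]
  have h0 : 0 ≤ ∑ a ∈ Ω, f (t 0) a ^ 2 := Finset.sum_nonneg (fun a _ => sq_nonneg _)
  have hBsub : B ⊆ Finset.range m := fun j hj => Finset.mem_range.2 (hBm j hj)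
  have hsumB : ∑ j ∈ B, ∑ a ∈ Ω, (f (t (j + 1)) a - f (t j) a) ^ 2 ≤
      ∑ j ∈ Finset.range m, ∑ a ∈ Ω, (f (t (j + 1)) a - f (t j) a) ^ 2 := by
    apply Finset.sum_le_sum_of_subset_of_nonneg hBsub
    intros
    exact Finset.sum_nonneg (fun a _ => sq_nonneg _)
  have hlow : ∀ j ∈ B, lam ^ 2 * (del * Ω.card) ≤
      ∑ a ∈ Ω, (f (t (j + 1)) a - f (t j) a) ^ 2 := by
    intro j hj
    have hjm := hBm j hj
    have hk := kolm Ω κ f (t j) (t (j + 1)) (ht j hjm)
      (fun l l' a b _ hll' hl' => h1 l l' a b hll' (hl'.trans (htR (j + 1) hjm)))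
      (fun l a b _ hl => h2 l a b (hl.trans (htR (j + 1) hjm)))
      (fun l c _ hl => h3 l (t (j + 1)) c hl (htR (j + 1) hjm))
      lam hlam
    refine le_trans ?_ hk
    have hlam2 : 0 < lam ^ 2 := by positivity
    exact mul_le_mul_of_nonneg_left (hB j hj).le hlam2.le
  have hfin : (B.card : ℝ) * (lam ^ 2 * (del * Ω.card)) ≤ M ^ 2 * Ω.card := by
    have h := Finset.card_nsmul_le_sum _ _ _ hlow
    rw [nsmul_eq_mul] at h
    linarith
  have : ((B.card : ℝ) * (lam ^ 2 * del)) * Ω.card ≤ M ^ 2 * Ω.card := by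
    calc _ = (B.card : ℝ) * (lam ^ 2 * (del * Ω.card)) := by ring
      _ ≤ _ := hfin
  exact le_of_mul_le_mul_right this hcard

end Mart

/-- fibres of the reduction of units -/
theorem fib (q Q b : ℕ) (hQ : 0 < Q) (h : q ∣ Q) (hb : Nat.Coprime b q) :
    q.totient * ((Finset.range Q).filter (fun a => a.Coprime Q ∧ a % q = b % q)).card =
      Q.totient := by
  classical
  haveI : NeZero Q := ⟨hQ.ne'⟩
  have hq : 0 < q := Nat.pos_of_dvd_of_pos h hQ
  haveI : NeZero q := ⟨hq.ne'⟩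
  have hsurj := ZMod.unitsMap_surjective h
  have hfibc : ∀ x y : (ZMod q)ˣ, (univ.filter (fun u => ZMod.unitsMap h u = x)).card =
      (univ.filter (fun u => ZMod.unitsMap h u = y)).card := by
    intro x y
    exact MonoidHom.card_fiber_eq_of_mem_range _ (hsurj x) (hsurj y)
  have htot : Q.totient = ∑ x : (ZMod q)ˣ, (univ.filter (fun u => ZMod.unitsMap h u = x)).card := by
    rw [← ZMod.card_units_eq_totient Q, ← Finset.card_univ]
    exact Finset.card_eq_sum_card_fiberwise (f := ZMod.unitsMap h)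
      (s := (univ : Finset (ZMod Q)ˣ)) (t := univ) (fun _ _ => mem_coe.2 (mem_univ _))
  have hcast : ((Finset.range Q).filter (fun a => a.Coprime Q ∧ a % q = b % q)).card =
      (univ.filter (fun u => ZMod.unitsMap h u = ZMod.unitOfCoprime b hb)).card := by
    symm
    apply Finset.card_bij (fun (u : (ZMod Q)ˣ) _ => (u : ZMod Q).val)
    · intro u hu
      simp only [Finset.mem_filter, Finset.mem_univ, true_and] at hu
      simp only [Finset.mem_filter, Finset.mem_range]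
      refine ⟨ZMod.val_lt _, ZMod.val_coe_unit_coprime u, ?_⟩
      have h1 := congrArg (fun v : (ZMod q)ˣ => ((v : ZMod q))) hu
      simp only [ZMod.unitsMap_val, ZMod.coe_unitOfCoprime] at h1
      have h2 : (((u : ZMod Q).val : ℕ) : ZMod q) = (b : ZMod q) := by
        rw [← h1, ZMod.natCast_val]
      exact (ZMod.natCast_eq_natCast_iff' _ _ _).1 h2
    · intro u _ v _ huv
      exact Units.ext (ZMod.val_injective Q huv)
    · intro a ha
      simp only [Finset.mem_filter, Finset.mem_range] at ha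
      obtain ⟨haQ, hac, hab⟩ := ha
      refine ⟨ZMod.unitOfCoprime a hac, ?_, ?_⟩
      · simp only [Finset.mem_filter, Finset.mem_univ, true_and]
        apply Units.ext
        rw [ZMod.unitsMap_val, ZMod.coe_unitOfCoprime, ZMod.coe_unitOfCoprime, ZMod.cast_natCast h]
        exact (ZMod.natCast_eq_natCast_iff' _ _ _).2 hab
      · rw [ZMod.coe_unitOfCoprime, ZMod.val_natCast, Nat.mod_eq_of_lt haQ]
  rw [hcast, htot, Finset.sum_congr rfl (fun x _ => hfibc x (ZMod.unitOfCoprime b hb)),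
    Finset.sum_const, Finset.card_univ, ZMod.card_units_eq_totient, smul_eq_mul]

end Pool.Agent.W123.CE
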